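import Pool.Agent.H482R3.EB.Main
import Pool.Agent.H482R3.EC.AV3
import Pool.Agent.H930R2.EA.ACT2
import Pool.Agent.H946R2.EB.INJ
import Pool.Agent.H482R3.EC.CENZ
import Pool.Agent.H482R3.EC.CHO2
import Pool.Agent.H482R3.EC.CHO3
import Pool.Agent.H482R3.EC.AV2
import Pool.Agent.H482R3.EC.ZISO
import Pool.Agent.H877R2.CENF

set_option autoImplicit false

/-! Trivial centre for Artin groups whose generators split in two parts with all labels between
the parts even and at least 4, or infinite (project of helper482 with helpers 16, 265, 311, 338,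
617, 877, 930, 946, 963 and the helpers of MP_a1ec0a_al.Combination). -/

namespace Pool.Agent.Results.MP_6d85b4_al.TrivialCentre

open Pool.Agent.H482R3.EB.Asm

/-- The Artin group on `Fin n` with labels `m` (`0` stands for infinity). -/
abbrev Artin {n : ℕ} (m : Fin n → Fin n → ℕ) : Type :=
  PresentedGroup
    {r : FreeGroup (Fin n) | ∃ i j : Fin n, m i j ≠ 0 ∧
      r = ((CoxeterSystem.alternatingWord i j (m i j)).map FreeGroup.of).prod *
        (((CoxeterSystem.alternatingWord j i (m i j)).map FreeGroup.of).prod)⁻¹}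

/-- Let `M` be a Coxeter matrix on at least four generators and `U` a non-empty proper subset of
the generators such that every label between `U` and its complement is even and at least 4, or
infinite. Then the Artin group of `M` has trivial centre. -/
theorem result (n : ℕ) (M : CoxeterMatrix (Fin n)) (U : Set (Fin n)) (hn : 4 ≤ n)
    (h1 : U.Nonempty) (h2 : Uᶜ.Nonempty) (h : ∀ i ∈ U, ∀ j ∈ Uᶜ, Even (M i j) ∧ M i j ≠ 2) :
    Subgroup.center (Artin M) = ⊥ :=
  Pool.Agent.H877R2.CENF.t_CENF spl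
    (Pool.Agent.H311R6.EB.t_CENZ
      (Pool.Agent.H930R2.EA.t_ACT2 rep uni upn upm actn a0 a1 a2 p1 ptn stl gen val) phi
      (Pool.Agent.H946R2.EB.t_INJ actb sem1b sem2b runb ev))
    sysb Pool.Agent.H482R3.EB.t_TAME Pool.Agent.H482R3.EC.AV3.t_AV3
    Pool.Agent.H963R.CEN.t_AV2 Pool.Agent.H617R.EB.t_CHO3 Pool.Agent.H311R6.EB.t_CHO2
    (Pool.Agent.H482R3.EB.ZISO.t_ISOJ Pool.Agent.H482R3.EB.t_LIFTR
      Pool.Agent.H482R3.EB.t_LIFTJ Pool.Agent.H482R3.EB.t_RELR)
    (Pool.Agent.H482R3.EB.ZISO.t_ISOA Pool.Agent.H482R3.EB.t_LIFTR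
      Pool.Agent.H482R3.EB.t_LIFTJ Pool.Agent.H482R3.EB.t_RELR) n M U hn h1 h2 h

end Pool.Agent.Results.MP_6d85b4_al.TrivialCentre
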